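import Pool.Agent.TH457.HT.LinDefs

/-!
# A linear context-free language, and random access programs: definitions
-/

set_option autoImplicit false

open Finset

namespace Pool.Agent.HM13.LC

open Pool.Agent.TH457.HT

/-- The letters: a bit, which may carry a flag; the flag is again a bit. -/
abbrev Letter : Type := Bool × Option Bool

/-- The nonterminals. -/
inductive NT
  | s
  | t (c : Bool)
  deriving DecidableEq

instance : Fintype NT := ⟨{NT.s, NT.t true, NT.t false}, by
  intro x
  rcases x with _ | c
  · simp
  · cases c <;> simp⟩

/-- The rules `A → u B v`: `s → s a`, `s → t_c (b, c)` and `t_c → a t_c' a'` with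
`c' = c + a a'` (product of the bits, sum modulo 2). -/
inductive Inner : NT × List Letter × NT × List Letter → Prop
  | skip (a : Letter) : Inner (.s, [], .s, [a])
  | flag (b c : Bool) : Inner (.s, [], .t c, [(b, some c)])
  | pair (c : Bool) (a a' : Letter) : Inner (.t c, [a], .t (xor c (a.1 && a'.1)), [a'])

/-- The rules `A → u`: `t_1 → ε` and `t_1 → a`. -/
inductive Last : NT × List Letter → Prop
  | nil : Last (.t true, [])
  | mid (a : Letter) : Last (.t true, [a])

/-- The linear context-free grammar. -/
def gram : LinGrammar Letter where
  NT := NT
  start := .s
  inner := {p | Inner p}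
  last := {p | Last p}
  inner_fin := by
    refine Set.Finite.subset (Set.Finite.prod (Set.finite_univ (α := NT))
      (Set.Finite.prod (List.finite_length_le Letter 1)
      (Set.Finite.prod (Set.finite_univ (α := NT)) (List.finite_length_le Letter 1)))) ?_
    intro p hp
    cases hp <;> simp
  last_fin := by
    refine Set.Finite.subset (Set.Finite.prod (Set.finite_univ (α := NT))
      (List.finite_length_le Letter 1)) ?_
    intro p hp
    cases hp <;> simp

/-- A nonuniform deterministic random access program for words of length `n` over `Λ`: a finite
set of states; in a state the program either reads the letter at some position, and the next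
state depends on this letter, or it halts with an answer. -/
structure Prog (Λ : Type) (n : ℕ) where
  /-- the states -/
  Q : Type
  [fin : Fintype Q]
  /-- the first state -/
  start : Q
  /-- what is done in a state -/
  act : Q → (Fin n × (Λ → Q)) ⊕ Bool

attribute [instance] Prog.fin

/-- One step on the word `w`. -/
def Prog.step {Λ : Type} {n : ℕ} (P : Prog Λ n) (w : Fin n → Λ) (q : P.Q) : P.Q :=
  match P.act q with
  | Sum.inl (i, next) => next (w i)
  | Sum.inr _ => q

/-- On the word `w` the program reads at most `T` letters and then gives the answer `b`. -/
def Prog.Answers {Λ : Type} {n : ℕ} (P : Prog Λ n) (T : ℕ) (w : Fin n → Λ) (b : Bool) : Prop :=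
  ∃ t ≤ T, P.act ((P.step w)^[t] P.start) = Sum.inr b

end Pool.Agent.HM13.LC
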