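import Pool.Agent.HM13.LC.Defs

/-!
# The language of the grammar
-/

set_option autoImplicit false

open Finset

namespace Pool.Agent.HM13.LC

open Pool.Agent.TH457.HT

/-- the bit at the position `u` -/
def bt (w : List Letter) (u : ℕ) : Bool := (w.getD u (false, none)).1

/-- The number of pairs `u < v` of positions with `u + v + 1` equal to the length of the word
and with both bits equal to one. -/
def prs (w : List Letter) : ℕ :=
  ((range w.length).filter (fun u => 2 * u + 1 < w.length ∧ bt w u = true ∧
    bt w (w.length - 1 - u) = true)).card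

theorem prs_nil : prs [] = 0 := by simp [prs]

theorem prs_one (a : Letter) : prs [a] = 0 := by
  unfold prs
  rw [Finset.card_eq_zero, Finset.filter_eq_empty_iff]
  intro u _ h
  simp at h

theorem prs_pair (a a' : Letter) (w : List Letter) :
    prs ([a] ++ w ++ [a']) = (if (a.1 && a'.1) = true then 1 else 0) + prs w := by
  have hl : ([a] ++ w ++ [a']).length = w.length + 2 := by simp
  have hb0 : bt ([a] ++ w ++ [a']) 0 = a.1 := by simp [bt]
  have hbl : bt ([a] ++ w ++ [a']) (w.length + 1) = a'.1 := by
    unfold bt
    rw [List.getD_append_right _ _ _ _ (by simp)]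
    simp
  have hbm : ∀ u, u < w.length → bt ([a] ++ w ++ [a']) (u + 1) = bt w u := by
    intro u hu
    unfold bt
    rw [List.getD_append _ _ _ _ (by simp; omega), List.singleton_append, List.getD_cons_succ]
  unfold prs
  rw [hl]
  have hset : (range (w.length + 2)).filter (fun u => 2 * u + 1 < w.length + 2 ∧
      bt ([a] ++ w ++ [a']) u = true ∧
      bt ([a] ++ w ++ [a']) (w.length + 2 - 1 - u) = true) =
      (if (a.1 && a'.1) = true then {0} else ∅) ∪
      ((range w.length).filter (fun u => 2 * u + 1 < w.length ∧ bt w u = true ∧
        bt w (w.length - 1 - u) = true)).image (fun u => u + 1) := by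
    ext u
    rcases u with _ | u
    · have h0 : w.length + 2 - 1 - 0 = w.length + 1 := by omega
      simp only [mem_filter, mem_range, mem_union, mem_image]
      rw [h0, hb0, hbl]
      constructor
      · rintro ⟨-, -, h1, h2⟩
        left
        rw [if_pos (by rw [h1, h2]; rfl)]
        simp
      · rintro (h | ⟨v, -, h⟩)
        · split_ifs at h with h3
          · rw [Bool.and_eq_true] at h3
            exact ⟨by omega, by omega, h3.1, h3.2⟩
          · simp at h
        · omega
    · simp only [mem_filter, mem_range, mem_union, mem_image]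
      constructor
      · rintro ⟨h1, h2, h3, h4⟩
        right
        refine ⟨u, ⟨by omega, by omega, ?_, ?_⟩, rfl⟩
        · rwa [hbm u (by omega)] at h3
        · rw [show w.length + 2 - 1 - (u + 1) = (w.length - 1 - u) + 1 by omega,
            hbm _ (by omega)] at h4
          exact h4
      · rintro (h | ⟨v, ⟨h1, h2, h3, h4⟩, h5⟩)
        · split_ifs at h with h3 <;> simp at h
        · have : v = u := by omega
          subst this
          refine ⟨by omega, by omega, ?_, ?_⟩
          · rw [hbm v h1]; exact h3
          · rw [show w.length + 2 - 1 - (v + 1) = (w.length - 1 - v) + 1 by omega,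
              hbm _ (by omega)]
            exact h4
  rw [hset, Finset.card_union_of_disjoint, Finset.card_image_of_injective _ (add_left_injective 1)]
  · congr 1
    split_ifs <;> simp
  · rw [Finset.disjoint_left]
    intro u hu hu'
    obtain ⟨v, -, rfl⟩ := mem_image.1 hu'
    split_ifs at hu <;> simp at hu

/-- the parity of the number of pairs -/
def pty (w : List Letter) : Bool := decide (Odd (prs w))

theorem pty_nil : pty [] = false := by
  unfold pty; rw [prs_nil]; decide

theorem pty_one (a : Letter) : pty [a] = false := by
  unfold pty; rw [prs_one]; decide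

theorem pty_pair (a a' : Letter) (w : List Letter) :
    pty ([a] ++ w ++ [a']) = xor (a.1 && a'.1) (pty w) := by
  unfold pty
  rw [prs_pair]
  by_cases h : (a.1 && a'.1) = true
  · rw [if_pos h, h, Bool.true_xor]
    by_cases h2 : Odd (prs w)
    · rw [decide_eq_true h2, decide_eq_false]
      · rfl
      · intro h3
        rw [Nat.odd_iff] at h2 h3
        omega
    · rw [decide_eq_false h2, decide_eq_true]
      · rfl
      · rw [Nat.odd_iff] at h2 ⊢
        omega
  · rw [if_neg h, zero_add]
    rw [Bool.not_eq_true] at h
    rw [h, Bool.false_xor]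

theorem gen_t_of (n : ℕ) : ∀ (w : List Letter) (c : Bool), w.length ≤ n → xor c (pty w) = true →
    gram.Gen (.t c) w := by
  induction n using Nat.strong_induction_on with
  | _ n ih =>
    intro w c hw h
    rcases w with _ | ⟨a, w⟩
    · rw [pty_nil, Bool.xor_false] at h
      subst h
      exact LinGrammar.Gen.last _ _ Last.nil
    · rcases List.eq_nil_or_concat w with rfl | ⟨w', a', rfl⟩
      · rw [pty_one, Bool.xor_false] at h
        subst h
        exact LinGrammar.Gen.last _ _ (Last.mid a)
      · have e : a :: (w'.concat a') = [a] ++ w' ++ [a'] := by simp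
        rw [e] at h ⊢
        rw [pty_pair, ← Bool.xor_assoc] at h
        have hlen : (a :: w'.concat a').length = w'.length + 2 := by simp
        rw [hlen] at hw
        exact LinGrammar.Gen.inner _ _ _ _ _ (Inner.pair c a a')
          (ih w'.length (by omega) w' _ le_rfl h)

/-- what the nonterminals generate -/
def Sem : NT → List Letter → Prop
  | .t c, w => xor c (pty w) = true
  | .s, w => ∃ (w₁ : List Letter) (b c : Bool) (w₂ : List Letter),
      w = w₁ ++ (b, some c) :: w₂ ∧ pty w₁ ≠ c

theorem sem_of_gen (A : gram.NT) (w : List Letter) (h : gram.Gen A w) : Sem A w := by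
  induction h with
  | last A u h =>
    have h' : Last (A, u) := h
    cases h' with
    | nil =>
      show xor true (pty []) = true
      rw [pty_nil]; rfl
    | mid a =>
      show xor true (pty [a]) = true
      rw [pty_one]; rfl
  | inner A B u v w h _ ih =>
    have h' : Inner (A, u, B, v) := h
    cases h' with
    | skip a =>
      obtain ⟨w₁, b, c, w₂, rfl, h2⟩ := ih
      exact ⟨w₁, b, c, w₂ ++ [a], by simp, h2⟩
    | flag b c =>
      refine ⟨w, b, c, [], by simp, ?_⟩
      have ih' : xor c (pty w) = true := ih
      intro h3
      rw [h3, Bool.xor_self] at ih'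
      exact Bool.noConfusion ih'
    | pair c a a' =>
      have ih' : xor (xor c (a.1 && a'.1)) (pty w) = true := ih
      show xor c (pty ([a] ++ w ++ [a'])) = true
      rw [pty_pair, ← Bool.xor_assoc]
      exact ih'

theorem gen_s_of (w₁ : List Letter) (b c : Bool) (h : pty w₁ ≠ c) (w₂ : List Letter) :
    gram.Gen .s (w₁ ++ (b, some c) :: w₂) := by
  induction w₂ using List.reverseRecOn with
  | nil =>
    have h1 : gram.Gen (.t c) w₁ := by
      refine gen_t_of _ w₁ c le_rfl ?_
      revert h
      cases c <;> cases pty w₁ <;> decide
    have h2 := LinGrammar.Gen.inner (G := gram) _ _ _ _ _ (Inner.flag b c) h1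
    simpa using h2
  | append_singleton w₂ a ih =>
    have h2 := LinGrammar.Gen.inner (G := gram) _ _ _ _ _ (Inner.skip a) ih
    simpa using h2

/-- **The language of the grammar.** -/
theorem mem_lang (w : List Letter) : w ∈ gram.language ↔
    ∃ (w₁ : List Letter) (b c : Bool) (w₂ : List Letter),
      w = w₁ ++ (b, some c) :: w₂ ∧ pty w₁ ≠ c := by
  constructor
  · intro h
    exact sem_of_gen NT.s w h
  · rintro ⟨w₁, b, c, w₂, rfl, h⟩
    exact gen_s_of w₁ b c h w₂

end Pool.Agent.HM13.LC
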