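import Pool.Agent.HM13.LC.Rank

/-!
# Pseudorandom sets of antidiagonals
-/

set_option autoImplicit false

open Finset

namespace Pool.Agent.HM13.LC

variable {m N : ℕ}

/-- the position of the sum -/
def ps (u t : Fin m) : Fin (2 * m) := ⟨(u : ℕ) + t, by omega⟩

/-- the balanced indicator function of a colour -/
noncomputable def eta (j : Fin N) (c : Fin (2 * m) → Fin N) (s : Fin (2 * m)) : ℝ :=
  (if c s = j then 1 else 0) - 1 / N

theorem eta_abs (hN : 0 < N) (j : Fin N) (c : Fin (2 * m) → Fin N) (s : Fin (2 * m)) :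
    |eta j c s| ≤ 1 := by
  have h1 : (0 : ℝ) < 1 / N := by positivity
  have h2 : (1 : ℝ) / N ≤ 1 := by
    rw [div_le_one (by exact_mod_cast hN)]
    exact_mod_cast hN
  unfold eta
  rw [abs_le]
  split_ifs <;> constructor <;> linarith

/-- An isolated position makes the sum vanish. -/
theorem isolated (hN : 0 < N) (j : Fin N) (s0 : Fin (2 * m)) (g : (Fin (2 * m) → Fin N) → ℝ)
    (hg : ∀ c a, g (Function.update c s0 a) = g c) : ∑ c, eta j c s0 * g c = 0 := by
  classical
  rw [← (Equiv.funSplitAt s0 (Fin N)).symm.sum_comp, Fintype.sum_prod_type_right]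
  refine Finset.sum_eq_zero fun c' _ => ?_
  have h1 : ∀ a : Fin N, g ((Equiv.funSplitAt s0 (Fin N)).symm (a, c')) =
      g ((Equiv.funSplitAt s0 (Fin N)).symm (j, c')) := by
    intro a
    rw [← hg ((Equiv.funSplitAt s0 (Fin N)).symm (j, c')) a]
    congr 1
    funext s
    by_cases hs : s = s0
    · subst hs
      simp [Equiv.funSplitAt, Equiv.piSplitAt]
    · simp [Equiv.funSplitAt, Equiv.piSplitAt, hs]
  have h2 : ∀ a : Fin N, eta j ((Equiv.funSplitAt s0 (Fin N)).symm (a, c')) s0 =
      (if a = j then 1 else 0) - 1 / N := by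
    intro a
    simp [eta, Equiv.funSplitAt, Equiv.piSplitAt]
  simp only [h1, h2]
  rw [← Finset.sum_mul, Finset.sum_sub_distrib]
  simp only [Finset.sum_ite_eq', Finset.mem_univ, if_true, Finset.sum_const, Finset.card_univ,
    Fintype.card_fin, nsmul_eq_mul]
  have h3 : (N : ℝ) ≠ 0 := by exact_mod_cast hN.ne'
  field_simp
  simp

theorem update_ne (c : Fin (2 * m) → Fin N) {s s0 : Fin (2 * m)} (a : Fin N) (h : s ≠ s0)
    (j : Fin N) : eta j (Function.update c s0 a) s = eta j c s := by
  unfold eta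
  rw [Function.update_of_ne h]

theorem four_zero (hN : 0 < N) (j : Fin N) (u u' t t' : Fin m) (hu : u ≠ u') (ht : t ≠ t') :
    ∑ c : Fin (2 * m) → Fin N, eta j c (ps u t) * eta j c (ps u' t) *
      (eta j c (ps u t') * eta j c (ps u' t')) = 0 := by
  have hu' : (u : ℕ) ≠ u' := fun h => hu (Fin.ext h)
  have ht' : (t : ℕ) ≠ t' := fun h => ht (Fin.ext h)
  have ab : ps u t ≠ ps u' t := by
    intro h; have := congrArg Fin.val h; simp [ps] at this; omega
  have ac : ps u t ≠ ps u t' := by
    intro h; have := congrArg Fin.val h; simp [ps] at this; omega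
  have bd : ps u' t ≠ ps u' t' := by
    intro h; have := congrArg Fin.val h; simp [ps] at this; omega
  by_cases ad : ps u t = ps u' t'
  · have bc : ps u' t ≠ ps u t' := by
      intro h
      have h1 := congrArg Fin.val h
      have h2 := congrArg Fin.val ad
      simp [ps] at h1 h2
      omega
    have := isolated hN j (ps u' t) (fun c => eta j c (ps u t) *
      (eta j c (ps u t') * eta j c (ps u' t'))) (by
        intro c a
        rw [update_ne c a ab, update_ne c a bc.symm, update_ne c a bd.symm])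
    rw [← this]
    refine Finset.sum_congr rfl fun c _ => ?_
    ring
  · have := isolated hN j (ps u t) (fun c => eta j c (ps u' t) *
      (eta j c (ps u t') * eta j c (ps u' t'))) (by
        intro c a
        rw [update_ne c a ab.symm, update_ne c a ac.symm, update_ne c a (Ne.symm ad)])
    rw [← this]
    refine Finset.sum_congr rfl fun c _ => ?_
    ring

/-- the correlation of two rows -/
noncomputable def HH (j : Fin N) (c : Fin (2 * m) → Fin N) (u u' : Fin m) : ℝ :=
  ∑ t : Fin m, eta j c (ps u t) * eta j c (ps u' t)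

theorem total (hN : 0 < N) : ∃ c : Fin (2 * m) → Fin N,
    ∑ j : Fin N, ∑ u : Fin m, ∑ u' : Fin m, HH j c u u' ^ 2 ≤ 2 * N * (m : ℝ) ^ 3 := by
  classical
  have : NeZero N := ⟨hN.ne'⟩
  have hcardpos : (0 : ℝ) < Fintype.card (Fin (2 * m) → Fin N) := by
    have : 0 < Fintype.card (Fin (2 * m) → Fin N) := Fintype.card_pos
    exact_mod_cast this
  by_contra hcon
  push Not at hcon
  have h1 : ∑ _c : Fin (2 * m) → Fin N, (2 * N * (m : ℝ) ^ 3) <
      ∑ c : Fin (2 * m) → Fin N, ∑ j : Fin N, ∑ u : Fin m, ∑ u' : Fin m, HH j c u u' ^ 2 :=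
    Finset.sum_lt_sum_of_nonempty univ_nonempty fun c _ => hcon c
  rw [Finset.sum_const, Finset.card_univ, nsmul_eq_mul] at h1
  have h2 : ∑ c : Fin (2 * m) → Fin N, ∑ j : Fin N, ∑ u : Fin m, ∑ u' : Fin m, HH j c u u' ^ 2 =
      ∑ j : Fin N, ∑ u : Fin m, ∑ u' : Fin m, ∑ t : Fin m, ∑ t' : Fin m,
        ∑ c : Fin (2 * m) → Fin N, eta j c (ps u t) * eta j c (ps u' t) *
          (eta j c (ps u t') * eta j c (ps u' t')) := by
    rw [Finset.sum_comm]
    refine Finset.sum_congr rfl fun j _ => ?_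
    rw [Finset.sum_comm]
    refine Finset.sum_congr rfl fun u _ => ?_
    rw [Finset.sum_comm]
    refine Finset.sum_congr rfl fun u' _ => ?_
    have : ∀ c : Fin (2 * m) → Fin N, HH j c u u' ^ 2 =
        ∑ t : Fin m, ∑ t' : Fin m, eta j c (ps u t) * eta j c (ps u' t) *
          (eta j c (ps u t') * eta j c (ps u' t')) := by
      intro c
      unfold HH
      rw [sq, Finset.sum_mul_sum]
    simp only [this]
    rw [Finset.sum_comm]
    refine Finset.sum_congr rfl fun t _ => ?_
    rw [Finset.sum_comm]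
  have h3 : ∀ (j : Fin N) (u u' t t' : Fin m), ∑ c : Fin (2 * m) → Fin N,
      eta j c (ps u t) * eta j c (ps u' t) * (eta j c (ps u t') * eta j c (ps u' t')) ≤
      (if u = u' ∨ t = t' then (1 : ℝ) else 0) * Fintype.card (Fin (2 * m) → Fin N) := by
    intro j u u' t t'
    by_cases h : u = u' ∨ t = t'
    · rw [if_pos h, one_mul]
      have : ∀ c ∈ (univ : Finset (Fin (2 * m) → Fin N)),
          eta j c (ps u t) * eta j c (ps u' t) * (eta j c (ps u t') * eta j c (ps u' t')) ≤ 1 := by
        intro c _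
        refine le_trans (le_abs_self _) ?_
        rw [abs_mul, abs_mul, abs_mul]
        have a1 := eta_abs hN j c (ps u t)
        have a2 := eta_abs hN j c (ps u' t)
        have a3 := eta_abs hN j c (ps u t')
        have a4 := eta_abs hN j c (ps u' t')
        exact mul_le_one₀ (mul_le_one₀ a1 (abs_nonneg _) a2)
          (mul_nonneg (abs_nonneg _) (abs_nonneg _)) (mul_le_one₀ a3 (abs_nonneg _) a4)
      have h4 := Finset.sum_le_sum this
      rw [Finset.sum_const, Finset.card_univ, nsmul_eq_mul, mul_one] at h4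
      exact h4
    · rw [if_neg h, zero_mul]
      push Not at h
      exact le_of_eq (four_zero hN j u u' t t' h.1 h.2)
  have h4 : ∑ c : Fin (2 * m) → Fin N, ∑ j : Fin N, ∑ u : Fin m, ∑ u' : Fin m, HH j c u u' ^ 2 ≤
      ∑ j : Fin N, ∑ u : Fin m, ∑ u' : Fin m, ∑ t : Fin m, ∑ t' : Fin m,
        (if u = u' ∨ t = t' then (1 : ℝ) else 0) * Fintype.card (Fin (2 * m) → Fin N) := by
    rw [h2]
    exact Finset.sum_le_sum fun j _ => Finset.sum_le_sum fun u _ => Finset.sum_le_sum fun u' _ =>
      Finset.sum_le_sum fun t _ => Finset.sum_le_sum fun t' _ => h3 j u u' t t'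
  have h5 : ∑ j : Fin N, ∑ u : Fin m, ∑ u' : Fin m, ∑ t : Fin m, ∑ t' : Fin m,
        (if u = u' ∨ t = t' then (1 : ℝ) else 0) * Fintype.card (Fin (2 * m) → Fin N) ≤
      2 * N * (m : ℝ) ^ 3 * Fintype.card (Fin (2 * m) → Fin N) := by
    have h6 : ∀ u u' t t' : Fin m, (if u = u' ∨ t = t' then (1 : ℝ) else 0) ≤
        (if u = u' then 1 else 0) + (if t = t' then 1 else 0) := by
      intro u u' t t'
      by_cases h1 : u = u' <;> by_cases h2 : t = t' <;> simp [h1, h2]
    have h7 : ∑ j : Fin N, ∑ u : Fin m, ∑ u' : Fin m, ∑ t : Fin m, ∑ t' : Fin m,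
        (if u = u' ∨ t = t' then (1 : ℝ) else 0) * Fintype.card (Fin (2 * m) → Fin N) ≤
        ∑ j : Fin N, ∑ u : Fin m, ∑ u' : Fin m, ∑ t : Fin m, ∑ t' : Fin m,
        (((if u = u' then (1 : ℝ) else 0) + (if t = t' then 1 else 0)) *
          Fintype.card (Fin (2 * m) → Fin N)) :=
      Finset.sum_le_sum fun j _ => Finset.sum_le_sum fun u _ => Finset.sum_le_sum fun u' _ =>
      Finset.sum_le_sum fun t _ => Finset.sum_le_sum fun t' _ =>
        mul_le_mul_of_nonneg_right (h6 u u' t t') hcardpos.le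
    refine h7.trans (le_of_eq ?_)
    have i1 : ∀ u u' : Fin m, ∑ t : Fin m, ∑ t' : Fin m,
        (((if u = u' then (1 : ℝ) else 0) + (if t = t' then 1 else 0)) *
          (Fintype.card (Fin (2 * m) → Fin N) : ℝ)) =
        ((m : ℝ) ^ 2 * (if u = u' then (1 : ℝ) else 0) + m) *
          (Fintype.card (Fin (2 * m) → Fin N) : ℝ) := by
      intro u u'
      simp only [← Finset.sum_mul, Finset.sum_add_distrib, Finset.sum_ite_eq, Finset.mem_univ,
        if_true, Finset.sum_const, Finset.card_univ, Fintype.card_fin, nsmul_eq_mul, mul_one]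
      ring
    have i2 : ∀ u : Fin m, ∑ u' : Fin m, (((m : ℝ) ^ 2 * (if u = u' then (1 : ℝ) else 0) + m) *
          (Fintype.card (Fin (2 * m) → Fin N) : ℝ)) =
        (2 * (m : ℝ) ^ 2) * (Fintype.card (Fin (2 * m) → Fin N) : ℝ) := by
      intro u
      simp only [← Finset.sum_mul, Finset.sum_add_distrib, ← Finset.mul_sum, Finset.sum_ite_eq,
        Finset.mem_univ, if_true, Finset.sum_const, Finset.card_univ, Fintype.card_fin,
        nsmul_eq_mul, mul_one]
      ring
    simp only [i1, i2, Finset.sum_const, Finset.card_univ, Fintype.card_fin, nsmul_eq_mul]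
    ring
  have h8 := h1.trans_le (h4.trans h5)
  nlinarith

/-- the number of pairs with sum in the set -/
def NN (S : Finset ℕ) (A B : Finset (Fin m)) : ℕ := ∑ σ ∈ S, rr A B σ

/-- **Pseudorandom sets of antidiagonals.** -/
theorem pseudo (N : ℕ) (hN : 0 < N) (m : ℕ) : ∃ S : Finset ℕ, (∀ σ ∈ S, σ < 2 * m) ∧
    N * S.card ≤ 2 * m ∧ ∀ A B : Finset (Fin m),
      ((NN S A B : ℝ) - A.card * B.card / N) ^ 4 ≤ 2 * N * (m : ℝ) ^ 7 := by
  classical
  obtain ⟨c, hc⟩ := total (m := m) hN
  have : NeZero N := ⟨hN.ne'⟩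
  -- the rarest colour
  obtain ⟨j, hj⟩ : ∃ j : Fin N, N * (univ.filter (fun s => c s = j)).card ≤ 2 * m := by
    by_contra hcon
    push Not at hcon
    have h1 : ∑ _j : Fin N, 2 * m < ∑ j : Fin N, N * (univ.filter (fun s => c s = j)).card :=
      Finset.sum_lt_sum_of_nonempty univ_nonempty fun j _ => hcon j
    rw [Finset.sum_const, Finset.card_univ, Fintype.card_fin, smul_eq_mul] at h1
    have h2 := Finset.card_eq_sum_card_fiberwise (s := (univ : Finset (Fin (2 * m))))
      (t := (univ : Finset (Fin N))) (f := c) (fun _ _ => Finset.mem_coe.2 (mem_univ _))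
    rw [Finset.card_univ, Fintype.card_fin] at h2
    rw [← Finset.mul_sum, ← h2] at h1
    exact lt_irrefl _ h1
  refine ⟨(univ.filter (fun s => c s = j)).image Fin.val, ?_, ?_, ?_⟩
  · intro σ hσ
    obtain ⟨s, -, rfl⟩ := mem_image.1 hσ
    exact s.2
  · rw [card_image_of_injective _ Fin.val_injective]
    exact hj
  · intro A B
    have e1 : (NN ((univ.filter (fun s => c s = j)).image Fin.val) A B : ℝ) -
        A.card * B.card / N = ∑ t ∈ B, ∑ u ∈ A, eta j c (ps u t) := by
      have e2 : (NN ((univ.filter (fun s => c s = j)).image Fin.val) A B : ℝ) =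
          ∑ t ∈ B, ∑ u ∈ A, (if c (ps u t) = j then (1 : ℝ) else 0) := by
        unfold NN
        rw [Finset.sum_image (fun a _ b _ h => Fin.val_injective h)]
        push_cast
        have e3 : ∀ s : Fin (2 * m), (rr A B (s : ℕ) : ℝ) =
            ∑ t ∈ B, ∑ u ∈ A, (if ps u t = s then (1 : ℝ) else 0) := by
          intro s
          unfold rr
          rw [Finset.card_filter, Finset.sum_product_right]
          push_cast
          refine Finset.sum_congr rfl fun t _ => Finset.sum_congr rfl fun u _ => ?_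
          have : ((u : ℕ) + t = s) ↔ ps u t = s := by
            constructor
            · intro h; exact Fin.ext h
            · intro h; exact congrArg Fin.val h
          simp only [this]
        simp only [e3]
        rw [Finset.sum_comm]
        refine Finset.sum_congr rfl fun t _ => ?_
        rw [Finset.sum_comm]
        refine Finset.sum_congr rfl fun u _ => ?_
        rw [Finset.sum_ite_eq]
        simp
      rw [e2]
      unfold eta
      simp only [Finset.sum_sub_distrib, Finset.sum_const, nsmul_eq_mul]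
      ring
    rw [e1]
    have b1 : (∑ t ∈ B, ∑ u ∈ A, eta j c (ps u t)) ^ 2 ≤
        m * ∑ t : Fin m, (∑ u ∈ A, eta j c (ps u t)) ^ 2 := by
      refine (sq_sum_le_card_mul_sum_sq).trans ?_
      refine mul_le_mul ?_ ?_ (Finset.sum_nonneg fun _ _ => sq_nonneg _) (Nat.cast_nonneg _)
      · have := Finset.card_le_univ B
        rw [Fintype.card_fin] at this
        exact_mod_cast this
      · exact Finset.sum_le_sum_of_subset_of_nonneg (subset_univ _) fun _ _ _ => sq_nonneg _
    have b2 : ∑ t : Fin m, (∑ u ∈ A, eta j c (ps u t)) ^ 2 =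
        ∑ p ∈ A ×ˢ A, HH j c p.1 p.2 := by
      unfold HH
      rw [Finset.sum_comm]
      refine Finset.sum_congr rfl fun t _ => ?_
      rw [sq, Finset.sum_mul_sum, Finset.sum_product]
    have b3 : (∑ p ∈ A ×ˢ A, HH j c p.1 p.2) ^ 2 ≤ (m : ℝ) ^ 2 * (2 * N * (m : ℝ) ^ 3) := by
      refine (sq_sum_le_card_mul_sum_sq).trans ?_
      refine mul_le_mul ?_ ?_ (Finset.sum_nonneg fun _ _ => sq_nonneg _) (by positivity)
      · rw [Finset.card_product]
        have := Finset.card_le_univ A
        rw [Fintype.card_fin] at this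
        push_cast
        have h' : (A.card : ℝ) ≤ m := by exact_mod_cast this
        nlinarith [Nat.cast_nonneg (α := ℝ) A.card]
      · calc ∑ p ∈ A ×ˢ A, HH j c p.1 p.2 ^ 2 ≤
            ∑ p : Fin m × Fin m, HH j c p.1 p.2 ^ 2 :=
              Finset.sum_le_sum_of_subset_of_nonneg (subset_univ _) fun _ _ _ => sq_nonneg _
          _ = ∑ u : Fin m, ∑ u' : Fin m, HH j c u u' ^ 2 := Fintype.sum_prod_type _
          _ ≤ ∑ j : Fin N, ∑ u : Fin m, ∑ u' : Fin m, HH j c u u' ^ 2 :=
              Finset.single_le_sum (f := fun j : Fin N => ∑ u : Fin m, ∑ u' : Fin m,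
                HH j c u u' ^ 2) (fun _ _ => Finset.sum_nonneg fun _ _ => Finset.sum_nonneg
                  fun _ _ => sq_nonneg _) (mem_univ j)
          _ ≤ _ := hc
    have b4 : 0 ≤ ∑ t : Fin m, (∑ u ∈ A, eta j c (ps u t)) ^ 2 :=
      Finset.sum_nonneg fun _ _ => sq_nonneg _
    calc (∑ t ∈ B, ∑ u ∈ A, eta j c (ps u t)) ^ 4
        = ((∑ t ∈ B, ∑ u ∈ A, eta j c (ps u t)) ^ 2) ^ 2 := by ring
      _ ≤ (m * ∑ t : Fin m, (∑ u ∈ A, eta j c (ps u t)) ^ 2) ^ 2 :=
          pow_le_pow_left₀ (sq_nonneg _) b1 2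
      _ = (m : ℝ) ^ 2 * (∑ p ∈ A ×ˢ A, HH j c p.1 p.2) ^ 2 := by rw [b2]; ring
      _ ≤ (m : ℝ) ^ 2 * ((m : ℝ) ^ 2 * (2 * N * (m : ℝ) ^ 3)) :=
          mul_le_mul_of_nonneg_left b3 (by positivity)
      _ = 2 * N * (m : ℝ) ^ 7 := by ring

end Pool.Agent.HM13.LC
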