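import Pool.Agent.HM13.LC.Word
import Pool.Agent.HM13.LC.Pseudo
import Pool.Agent.H554R2.Lin.Main
import Pool.Agent.H554R2.Lin.Blocks

/-!
# A linear language which is hard for random access programs in linear time
-/

set_option autoImplicit false

open Finset

namespace Pool.Agent.HM13.LC

open Pool.Agent.TH457.HT Pool.Agent.H554R2.Sem Pool.Agent.H554R2.Lin Pool.Agent.H554R2.Coin

variable {m n : ℕ}

/-- The program on the words of points, as a program which queries the bits of the points. -/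
def toBP (P : Prog Letter n) (hm : 0 < m) (S : Finset ℕ) (c : ℕ → Bool) : BP (Fin m) Bool where
  State := P.Q
  start := P.start
  node q := match P.act q with
    | Sum.inr b => Sum.inr b
    | Sum.inl (i, next) => if h : (i : ℕ) < m then
        Sum.inl (⟨i, h⟩, fun b => next (b, fl S c i)) else
        Sum.inl (⟨0, hm⟩, fun _ => next (false, fl S c i))

theorem toBP_inr (P : Prog Letter n) (hm : 0 < m) (S : Finset ℕ) (c : ℕ → Bool) {q : P.Q}
    {b : Bool} (h : P.act q = Sum.inr b) : (toBP P hm S c).node q = Sum.inr b := by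
  unfold toBP
  simp only [h]

theorem toBP_inl (P : Prog Letter n) (hm : 0 < m) (S : Finset ℕ) (c : ℕ → Bool) {q : P.Q}
    {i : Fin n} {next : Letter → P.Q} (h : P.act q = Sum.inl (i, next)) (x : Pt m) :
    ∃ (i' : Fin m) (nxt : Bool → P.Q), (toBP P hm S c).node q = Sum.inl (i', nxt) ∧
      nxt (x i') = next (wd n S c x i) := by
  by_cases hi : (i : ℕ) < m
  · refine ⟨⟨i, hi⟩, fun b => next (b, fl S c i), ?_, ?_⟩
    · unfold toBP
      simp only [h, dif_pos hi]
    · unfold wd xx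
      rw [dif_pos hi]
  · refine ⟨⟨0, hm⟩, fun _ => next (false, fl S c i), ?_, ?_⟩
    · unfold toBP
      simp only [h, dif_neg hi]
    · unfold wd xx
      rw [dif_neg hi]

theorem step_inr (P : Prog Letter n) (w : Fin n → Letter) {q : P.Q} {b : Bool}
    (h : P.act q = Sum.inr b) : P.step w q = q := by
  unfold Prog.step
  simp only [h]

theorem step_inl (P : Prog Letter n) (w : Fin n → Letter) {q : P.Q} {i : Fin n}
    {next : Letter → P.Q} (h : P.act q = Sum.inl (i, next)) : P.step w q = next (w i) := by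
  unfold Prog.step
  simp only [h]

theorem walk_of (P : Prog Letter n) (hm : 0 < m) (S : Finset ℕ) (c : ℕ → Bool) (x : Pt m) :
    ∀ (t : ℕ) (q : P.Q), ∃ l : List (Fin m), l.length ≤ t ∧
      (toBP P hm S c).Walk x q l ((P.step (wd n S c x))^[t] q) := by
  intro t
  induction t with
  | zero => exact fun q => ⟨[], le_rfl, rfl⟩
  | succ t ih =>
    intro q
    rw [Function.iterate_succ_apply]
    rcases h : P.act q with ⟨i, next⟩ | b
    · obtain ⟨i', nxt, h1, h2⟩ := toBP_inl P hm S c h x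
      rw [step_inl P _ h]
      obtain ⟨l, hl, hw⟩ := ih (next (wd n S c x i))
      refine ⟨i' :: l, by simpa using hl, nxt, h1, ?_⟩
      rw [h2]
      exact hw
    · rw [step_inr P _ h]
      obtain ⟨l, hl, hw⟩ := ih q
      exact ⟨l, by omega, hw⟩

theorem of_walk (P : Prog Letter n) (hm : 0 < m) (S : Finset ℕ) (c : ℕ → Bool) (x : Pt m) :
    ∀ (l : List (Fin m)) (q v : P.Q), (toBP P hm S c).Walk x q l v →
      (P.step (wd n S c x))^[l.length] q = v := by
  intro l
  induction l with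
  | nil => exact fun q v h => h
  | cons i l ih =>
    intro q v h
    obtain ⟨nxt, h1, h2⟩ := h
    rcases ha : P.act q with ⟨j, next⟩ | b
    · obtain ⟨i', nxt', h3, h4⟩ := toBP_inl P hm S c ha x
      rw [h3] at h1
      have h5 := Sum.inl_injective h1
      obtain ⟨rfl, rfl⟩ := Prod.mk.injEq _ _ _ _ ▸ h5
      rw [List.length_cons, Function.iterate_succ_apply, step_inl P _ ha, ← h4]
      exact ih _ _ h2
    · rw [toBP_inr P hm S c ha] at h1
      cases h1

theorem comp_of (P : Prog Letter n) (hm : 0 < m) (S : Finset ℕ) (c : ℕ → Bool) (x : Pt m)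
    (T : ℕ) (b : Bool) (h : P.Answers T (wd n S c x) b) :
    ∃ l, (toBP P hm S c).Comp x l b ∧ l.length ≤ T := by
  obtain ⟨t, ht, h⟩ := h
  obtain ⟨l, hl, hw⟩ := walk_of P hm S c x t P.start
  exact ⟨l, ⟨_, hw, toBP_inr P hm S c h⟩, hl.trans ht⟩

theorem of_comp (P : Prog Letter n) (hm : 0 < m) (S : Finset ℕ) (c : ℕ → Bool) (x : Pt m)
    (b : Bool) (l : List (Fin m)) (h : (toBP P hm S c).Comp x l b) :
    P.Answers l.length (wd n S c x) b := by
  obtain ⟨v, hw, hv⟩ := h
  refine ⟨l.length, le_rfl, ?_⟩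
  have hw' : (P.step (wd n S c x))^[l.length] P.start = v := of_walk P hm S c x l _ _ hw
  rw [hw']
  rcases ha : P.act v with ⟨j, next⟩ | b'
  · obtain ⟨i', nxt', h3, -⟩ := toBP_inl P hm S c ha x
    rw [h3] at hv
    cases hv
  · rw [toBP_inr P hm S c ha] at hv
    exact congrArg Sum.inr (Sum.inr_injective hv)

/-- the arithmetic of the contradiction -/
theorem numeric (Q M m a b g a0 b0 : ℕ) (hQ : 0 < Q) (hM : 0 < M) (hm : 0 < m)
    (hQa : m ≤ Q * a) (hQb : m ≤ Q * b) (hga : 100 * g ≤ a) (hgb : 100 * g ≤ b)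
    (ha0 : a0 ≤ g) (hb0 : b0 ≤ g) (n1 n2 n3 : ℝ)
    (h1 : (n1 - a * b / M) ^ 4 ≤ 2 * M * (m : ℝ) ^ 7)
    (h2 : (n2 - a0 * b / M) ^ 4 ≤ 2 * M * (m : ℝ) ^ 7)
    (h3 : (n3 - a * b0 / M) ^ 4 ≤ 2 * M * (m : ℝ) ^ 7)
    (h : n1 ≤ n2 + n3) : m ≤ 512 * M ^ 5 * Q ^ 8 := by
  have hQ' : (0 : ℝ) < Q := by exact_mod_cast hQ
  have hM' : (0 : ℝ) < M := by exact_mod_cast hM
  have hm' : (0 : ℝ) < m := by exact_mod_cast hm
  have hQa' : (m : ℝ) ≤ Q * a := by exact_mod_cast hQa
  have hQb' : (m : ℝ) ≤ Q * b := by exact_mod_cast hQb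
  have ha0' : (100 : ℝ) * a0 ≤ a := by
    have : 100 * a0 ≤ a := by omega
    exact_mod_cast this
  have hb0' : (100 : ℝ) * b0 ≤ b := by
    have : 100 * b0 ≤ b := by omega
    exact_mod_cast this
  have ha : (0 : ℝ) ≤ a := Nat.cast_nonneg _
  have hb : (0 : ℝ) ≤ b := Nat.cast_nonneg _
  obtain ⟨d, hd⟩ : ∃ d : ℝ, d = a * b / M := ⟨_, rfl⟩
  have e2 : (a0 : ℝ) * b / M ≤ d / 100 := by
    rw [hd, div_div, div_le_div_iff₀ hM' (by positivity)]
    have : (a0 : ℝ) * b * 100 ≤ a * b := by nlinarith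
    nlinarith
  have e3 : (a : ℝ) * b0 / M ≤ d / 100 := by
    rw [hd, div_div, div_le_div_iff₀ hM' (by positivity)]
    have : (a : ℝ) * b0 * 100 ≤ a * b := by nlinarith
    nlinarith
  have hab : (m : ℝ) ^ 2 ≤ Q ^ 2 * (a * b) := by
    have := mul_le_mul hQa' hQb' hm'.le (by positivity)
    nlinarith
  have hdm : (m : ℝ) ^ 2 / (Q ^ 2 * M) ≤ d := by
    rw [hd, div_le_div_iff₀ (by positivity) hM']
    nlinarith
  have hdpos : 0 < d := lt_of_lt_of_le (by positivity) hdm
  have key : (3 / 10 * d) ^ 4 ≤ 2 * M * (m : ℝ) ^ 7 := by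
    rw [← hd] at h1
    have hsum : 98 / 100 * d ≤ (n2 - a0 * b / M) + (n3 - a * b0 / M) + (-(n1 - d)) := by
      linarith
    have h03 : (0 : ℝ) ≤ 3 / 10 * d := by positivity
    by_cases c2 : 3 / 10 * d ≤ n2 - a0 * b / M
    · exact (pow_le_pow_left₀ h03 c2 4).trans h2
    · by_cases c3 : 3 / 10 * d ≤ n3 - a * b0 / M
      · exact (pow_le_pow_left₀ h03 c3 4).trans h3
      · push Not at c2 c3
        have c1 : 3 / 10 * d ≤ -(n1 - d) := by linarith
        refine (pow_le_pow_left₀ h03 c1 4).trans ?_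
        rw [Even.neg_pow (by decide)]
        exact h1
  have key2 : ((m : ℝ) ^ 2 / (4 * (Q ^ 2 * M))) ^ 4 ≤ 2 * M * (m : ℝ) ^ 7 := by
    refine (pow_le_pow_left₀ (by positivity) ?_ 4).trans key
    have : (m : ℝ) ^ 2 / (4 * (Q ^ 2 * M)) = 1 / 4 * ((m : ℝ) ^ 2 / (Q ^ 2 * M)) := by
      field_simp
    rw [this]
    nlinarith
  have key3 : (m : ℝ) ≤ 512 * M ^ 5 * Q ^ 8 := by
    rw [div_pow, div_le_iff₀ (by positivity)] at key2
    have h7 : (0 : ℝ) < (m : ℝ) ^ 7 := by positivity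
    have : (m : ℝ) ^ 7 * m ≤ (m : ℝ) ^ 7 * (512 * M ^ 5 * Q ^ 8) := by
      calc (m : ℝ) ^ 7 * m = ((m : ℝ) ^ 2) ^ 4 := by ring
        _ ≤ _ := key2
        _ = _ := by ring
    exact le_of_mul_le_mul_left this h7
  exact_mod_cast key3

/-- the most frequent flags -/
theorem flags (S : Finset ℕ) : ∃ c : ℕ → Bool, 2 ^ m ≤ 2 ^ S.card *
    ((univ : Finset (Pt m)).filter (fun x => ∀ σ ∈ S, qz σ x = tz (c σ))).card := by
  classical
  have hq : ∀ z : ZMod 2, z = tz (decide (z = 1)) := by decide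
  let f : Pt m → (S → Bool) := fun x σ => decide (qz (σ : ℕ) x = 1)
  by_contra hcon
  push Not at hcon
  have h1 : ∀ y : S → Bool, 2 ^ S.card *
      ((univ : Finset (Pt m)).filter (fun x => f x = y)).card < 2 ^ m := by
    intro y
    refine lt_of_le_of_lt ?_ (hcon (fun σ => if h : σ ∈ S then y ⟨σ, h⟩ else false))
    refine Nat.mul_le_mul_left _ (Finset.card_le_card ?_)
    intro x hx
    rw [mem_filter] at hx ⊢
    refine ⟨mem_univ _, fun σ hσ => ?_⟩
    rw [dif_pos hσ, ← hx.2]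
    exact hq _
  have h2 := Finset.card_eq_sum_card_fiberwise (s := (univ : Finset (Pt m)))
      (t := (univ : Finset (S → Bool))) (f := f) (fun _ _ => Finset.mem_coe.2 (mem_univ _))
  have h3 : ∑ y : S → Bool, 2 ^ S.card *
      ((univ : Finset (Pt m)).filter (fun x => f x = y)).card < ∑ _y : S → Bool, 2 ^ m :=
    Finset.sum_lt_sum_of_nonempty univ_nonempty fun y _ => h1 y
  rw [← Finset.mul_sum, ← h2, Finset.sum_const, Finset.card_univ, Finset.card_univ,
    Fintype.card_fun, Fintype.card_fun, Fintype.card_coe, Fintype.card_fin, Fintype.card_bool,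
    smul_eq_mul] at h3
  exact lt_irrefl _ h3

/-- **The lower bound.** -/
theorem main (k : ℕ) : ∃ D : ℕ, 0 < D ∧ ∀ n ≥ D, ∀ (R : Type) [Fintype R] [Nonempty R]
    (P : R → Prog Letter n), (∀ ρ, Fintype.card (P ρ).Q ≤ 2 ^ (n / D)) →
      (∀ ρ T w, (P ρ).Answers T w false → List.ofFn w ∉ gram.language) →
      ∃ w : Fin n → Letter, List.ofFn w ∉ gram.language ∧
        2 ^ (n / D) * Nat.card {ρ // (P ρ).Answers (k * n) w false} < Fintype.card R := by
  classical
  obtain ⟨Q, r, N, hQ, hr, hN, hmain⟩ := main_rect (3 * k + 1)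
  obtain ⟨M, hM⟩ : ∃ M : ℕ, M = 4 * N := ⟨_, rfl⟩
  have hM0 : 0 < M := by omega
  obtain ⟨D, hD⟩ : ∃ D : ℕ, D = 6 * N * (r + 2) + 2 * N + 2 * r + 2 * (512 * M ^ 5 * Q ^ 8) + 4 :=
    ⟨_, rfl⟩
  refine ⟨D, by omega, fun n hn R _ _ P hP hsound => ?_⟩
  by_contra hcon
  push Not at hcon
  obtain ⟨m, hm⟩ : ∃ m : ℕ, m = n / 2 := ⟨_, rfl⟩
  have hm0 : 0 < m := by omega
  have hmN : N ≤ m := by omega
  have hmr : r ≤ m := by omega
  have hmb : 512 * M ^ 5 * Q ^ 8 < m := by omega
  have hn3 : n ≤ 3 * m := by omega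
  have hn2 : 2 * m ≤ n := by omega
  obtain ⟨S, hS1, hS2, hS3⟩ := pseudo M hM0 m
  obtain ⟨c, hc⟩ := flags (m := m) S
  set C : Finset (Pt m) := univ.filter (fun x => ∀ σ ∈ S, qz σ x = tz (c σ)) with hC
  -- the words of the points of `C` are not in the language
  have hCout : ∀ x ∈ C, List.ofFn (wd n S c x) ∉ gram.language := by
    intro x hx h
    obtain ⟨σ, hσ, -, h2⟩ := (mem_wd S c x).1 h
    exact h2 ((mem_filter.1 hx).2 σ hσ)
  -- one of the programs
  obtain ⟨ρ, hρ⟩ : ∃ ρ : R, C.card ≤ 2 ^ (n / D) *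
      (C.filter (fun x => (P ρ).Answers (k * n) (wd n S c x) false)).card := by
    by_contra h
    push Not at h
    have h1 : Fintype.card R * C.card ≤ 2 ^ (n / D) * ∑ ρ : R,
        (C.filter (fun x => (P ρ).Answers (k * n) (wd n S c x) false)).card := by
      have e1 : ∀ ρ : R, (C.filter (fun x => (P ρ).Answers (k * n) (wd n S c x) false)).card =
          ∑ x ∈ C, if (P ρ).Answers (k * n) (wd n S c x) false then 1 else 0 := by
        intro ρ
        rw [Finset.card_filter]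
      calc Fintype.card R * C.card = ∑ _x ∈ C, Fintype.card R := by
            rw [Finset.sum_const, smul_eq_mul, Nat.mul_comm]
        _ ≤ ∑ x ∈ C, 2 ^ (n / D) *
            ∑ ρ : R, (if (P ρ).Answers (k * n) (wd n S c x) false then 1 else 0) := by
            refine Finset.sum_le_sum fun x hx => ?_
            refine (hcon _ (hCout x hx)).trans (Nat.mul_le_mul_left _ (le_of_eq ?_))
            rw [Nat.card_eq_fintype_card, Fintype.card_subtype, Finset.card_filter]
        _ = _ := by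
            rw [← Finset.mul_sum]
            congr 1
            simp only [e1]
            exact Finset.sum_comm
    have h2 : ∑ ρ : R, 2 ^ (n / D) *
        (C.filter (fun x => (P ρ).Answers (k * n) (wd n S c x) false)).card <
        ∑ _ρ : R, C.card := Finset.sum_lt_sum_of_nonempty univ_nonempty fun ρ _ => h ρ
    rw [← Finset.mul_sum, Finset.sum_const, Finset.card_univ, smul_eq_mul] at h2
    omega
  set G := C.filter (fun x => (P ρ).Answers (k * n) (wd n S c x) false) with hG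
  -- blocks
  obtain ⟨s, hs⟩ : ∃ s : ℕ, s = 3 * k * m / r + 1 := ⟨_, rfl⟩
  have hs1 : 3 * k * m ≤ r * s := by
    have := Nat.lt_mul_div_succ (3 * k * m) hr
    rw [hs]; exact this.le
  have hs2 : r * s ≤ (3 * k + 1) * m := by
    have h1 := Nat.mul_div_le (3 * k * m) r
    rw [hs, Nat.mul_add, Nat.mul_one, Nat.add_mul, Nat.one_mul]
    omega
  have hkn : k * n ≤ r * s := by
    refine le_trans ?_ hs1
    calc k * n ≤ k * (3 * m) := Nat.mul_le_mul_left _ hn3
      _ = 3 * k * m := by ring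
  obtain ⟨B, hB1, hB2⟩ := blocks (toBP (P ρ) hm0 S c) r s hr G (by
    intro x hx
    obtain ⟨l, hl, hl2⟩ := comp_of (P ρ) hm0 S c x _ _ (mem_filter.1 hx).2
    exact ⟨l, hl, hl2.trans hkn⟩)
  have hcard : Fintype.card (toBP (P ρ) hm0 S c).State = Fintype.card (P ρ).Q := rfl
  rw [hcard] at hB1
  -- the size
  have hexp : S.card + (n / D) * (r + 2) ≤ m / N := by
    rw [Nat.le_div_iff_mul_le hN]
    have h1 : 2 * N * S.card ≤ m := by
      have : 4 * N * S.card ≤ 2 * m := by rw [← hM]; exact hS2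
      nlinarith
    have h2 : D * (n / D) ≤ n := Nat.mul_div_le n D
    have h3 : 6 * N * (r + 2) * (n / D) ≤ D * (n / D) := by
      refine Nat.mul_le_mul_right _ ?_
      rw [hD]; omega
    have h4 : 2 * ((S.card + (n / D) * (r + 2)) * N) =
        2 * N * S.card + 2 * N * (r + 2) * (n / D) := by ring
    have h5 : 3 * (2 * N * (r + 2) * (n / D)) = 6 * N * (r + 2) * (n / D) := by ring
    omega
  have hKbig : 2 ^ m ≤ 2 ^ (m / N) * B.K.card := by
    calc 2 ^ m ≤ 2 ^ S.card * C.card := hc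
      _ ≤ 2 ^ S.card * (2 ^ (n / D) * G.card) := Nat.mul_le_mul_left _ hρ
      _ ≤ 2 ^ S.card * (2 ^ (n / D) * ((2 ^ (n / D)) ^ (r + 1) * B.K.card)) := by
          apply Nat.mul_le_mul_left
          apply Nat.mul_le_mul_left
          refine hB1.trans (Nat.mul_le_mul_right _ ?_)
          exact Nat.pow_le_pow_left (hP ρ) _
      _ = 2 ^ (S.card + (n / D) * (r + 2)) * B.K.card := by
          rw [← pow_mul, ← mul_assoc, ← mul_assoc, ← pow_add, ← pow_add]
          congr 2
          ring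
      _ ≤ 2 ^ (m / N) * B.K.card :=
          Nat.mul_le_mul_right _ (Nat.pow_le_pow_right (by norm_num) hexp)
  obtain ⟨a, b, g, ha, hb, hga, hgb, ⟨Re⟩⟩ := hmain m hmN s hs2 B hKbig
  -- the forms are constant on `K`
  have hconst : ∀ σ ∈ S, ∃ e, ∀ x ∈ B.K, qz σ x = e := by
    intro σ hσ
    by_cases hσn : σ + 1 < n
    · refine ⟨tz (c σ), fun x hx => ?_⟩
      obtain ⟨l, hl⟩ := hB2 x hx
      have h1 := hsound ρ _ _ (of_comp (P ρ) hm0 S c x false l hl)
      by_contra h2
      exact h1 ((mem_wd S c x).2 ⟨σ, hσ, hσn, h2⟩)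
    · refine ⟨0, fun x _ => ?_⟩
      unfold qz
      refine Finset.sum_eq_zero fun u _ => Finset.sum_eq_zero fun t _ => ?_
      rw [if_neg]
      rintro ⟨h1, h2⟩
      have h1' : (u : ℕ) < t := h1
      have := t.2
      omega
  obtain ⟨I, J, hI, hJ, hIJ⟩ := rect_info Re
  have hle : NN S Re.A Re.B ≤ NN S (Re.A \ I) Re.B + NN S Re.A (Re.B \ J) := by
    unfold NN
    rw [← Finset.sum_add_distrib]
    exact Finset.sum_le_sum fun σ hσ => hIJ σ (hconst σ hσ)
  have h1 := hS3 Re.A Re.B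
  have h2 := hS3 (Re.A \ I) Re.B
  have h3 := hS3 Re.A (Re.B \ J)
  rw [Re.cA, Re.cB] at h1
  rw [Re.cB] at h2
  rw [Re.cA] at h3
  have hfin := numeric Q M m a b g (Re.A \ I).card (Re.B \ J).card hQ hM0 hm0 ha hb hga hgb hI hJ
    _ _ _ h1 h2 h3 (by exact_mod_cast hle)
  omega

end Pool.Agent.HM13.LC
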