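import Mathlib

/-!
# Information sets and antidiagonal bilinear forms
-/

set_option autoImplicit false

open Finset

namespace Pool.Agent.HM13.LC

/-- A subspace has a set of coordinates on which it is in bijection with all vectors. -/
theorem info {ι : Type} [Fintype ι] {K : Type} [Field K] (V : Submodule K (ι → K)) :
    ∃ I : Finset ι, (∀ f : ι → K, ∃ v ∈ V, ∀ j ∈ I, v j = f j) ∧
      (∀ v ∈ V, (∀ j ∈ I, v j = 0) → v = 0) := by
  classical
  let P : Finset ι → Prop := fun I => ∀ f : ι → K, ∃ v ∈ V, ∀ j ∈ I, v j = f j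
  have h0 : (univ.filter P).Nonempty :=
    ⟨∅, mem_filter.2 ⟨mem_univ _, fun f => ⟨0, V.zero_mem, by simp⟩⟩⟩
  obtain ⟨I, hI, hmax⟩ := (univ.filter P).exists_max_image Finset.card h0
  refine ⟨I, (mem_filter.1 hI).2, fun v hv h => ?_⟩
  by_contra hne
  obtain ⟨i, hi⟩ : ∃ i, v i ≠ 0 := by
    by_contra h'
    push Not at h'
    exact hne (funext h')
  have hiI : i ∉ I := fun h' => hi (h i h')
  have hP : P (insert i I) := by
    intro f
    obtain ⟨v1, hv1, h1⟩ := (mem_filter.1 hI).2 f
    refine ⟨v1 + ((f i - v1 i) / v i) • v, V.add_mem hv1 (V.smul_mem _ hv), fun j hj => ?_⟩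
    rcases Finset.mem_insert.1 hj with rfl | hj
    · simp [hi]
    · simp [h j hj, h1 j hj]
  have := hmax (insert i I) (mem_filter.2 ⟨mem_univ _, hP⟩)
  rw [card_insert_of_notMem hiI] at this
  omega

variable {m : ℕ}

/-- the number of pairs in `A × B` with sum `σ` -/
def rr (A B : Finset (Fin m)) (σ : ℕ) : ℕ :=
  ((A ×ˢ B).filter (fun p => (p.1 : ℕ) + p.2 = σ)).card

/-- the bilinear form of the antidiagonal `σ` -/
def bet (σ : ℕ) (v w : Fin m → ZMod 2) : ZMod 2 :=
  ∑ u : Fin m, ∑ t : Fin m, if (u : ℕ) + t = σ then v u * w t else 0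

theorem rr_le (V W : Submodule (ZMod 2) (Fin m → ZMod 2)) (A B I J : Finset (Fin m)) (σ : ℕ)
    (hA : ∀ v ∈ V, ∀ u, u ∉ A → v u = 0) (hB : ∀ w ∈ W, ∀ u, u ∉ B → w u = 0)
    (hI : ∀ f : Fin m → ZMod 2, ∃ v ∈ V, ∀ j ∈ I, v j = f j)
    (hJ : ∀ f : Fin m → ZMod 2, ∃ v ∈ W, ∀ j ∈ J, v j = f j)
    (hbet : ∀ v ∈ V, ∀ w ∈ W, bet σ v w = 0) :
    rr A B σ ≤ rr (A \ I) B σ + rr A (B \ J) σ := by
  classical
  have : Fact (Nat.Prime 2) := ⟨Nat.prime_two⟩
  set P : Finset (Fin m × Fin m) := (A ×ˢ B).filter (fun p => (p.1 : ℕ) + p.2 = σ) with hP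
  set P1 : Finset (Fin m × Fin m) := P.filter (fun p => p.1 ∈ I) with hP1
  set P2 : Finset (Fin m × Fin m) := P.filter (fun p => p.2 ∈ J) with hP2
  have c1 : P.card = P1.card + rr (A \ I) B σ := by
    rw [← Finset.card_filter_add_card_filter_not (s := P) (fun p => p.1 ∈ I)]
    congr 1
    unfold rr
    congr 1
    ext p
    simp only [hP, mem_filter, mem_product, mem_sdiff]
    tauto
  have c2 : P.card = P2.card + rr A (B \ J) σ := by
    rw [← Finset.card_filter_add_card_filter_not (s := P) (fun p => p.2 ∈ J)]
    congr 1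
    unfold rr
    congr 1
    ext p
    simp only [hP, mem_filter, mem_product, mem_sdiff]
    tauto
  have key : P1.card + P2.card ≤ P.card := by
    choose vv hvV hv using hI
    choose ww hwW hw using hJ
    let M1 : Matrix P1 P (ZMod 2) := fun e p => vv (Pi.single e.1.1 1) p.1.1
    let M2 : Matrix P P2 (ZMod 2) := fun p e => ww (Pi.single e.1.2 1) p.1.2
    let N1 : Matrix P P1 (ZMod 2) := fun p e => if p.1 = e.1 then 1 else 0
    let N2 : Matrix P2 P (ZMod 2) := fun e p => if p.1 = e.1 then 1 else 0
    have hz : M1 * M2 = 0 := by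
      ext e e'
      rw [Matrix.mul_apply, Matrix.zero_apply]
      have h1 := hbet _ (hvV (Pi.single e.1.1 1)) _ (hwW (Pi.single e'.1.2 1))
      rw [← h1]
      unfold bet
      rw [← Finset.sum_product' (f := fun u t : Fin m => if (u : ℕ) + t = σ then
        vv (Pi.single e.1.1 1) u * ww (Pi.single e'.1.2 1) t else 0)]
      rw [← Finset.sum_filter]
      rw [Finset.sum_coe_sort P (fun p => vv (Pi.single e.1.1 1) p.1 * ww (Pi.single e'.1.2 1) p.2)]
      refine Finset.sum_subset ?_ ?_
      · intro p hp
        rw [hP, mem_filter] at hp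
        rw [mem_filter]
        exact ⟨by simp, hp.2⟩
      · intro p hp hp'
        rw [mem_filter] at hp
        have h2 : p.1 ∉ A ∨ p.2 ∉ B := by
          by_contra h
          push Not at h
          exact hp' (by rw [hP, mem_filter, mem_product]; exact ⟨h, hp.2⟩)
        rcases h2 with h2 | h2
        · rw [hA _ (hvV _) _ h2, zero_mul]
        · rw [hB _ (hwW _) _ h2, mul_zero]
    have h1 : M1 * N1 = 1 := by
      ext e e'
      rw [Matrix.mul_apply]
      have he'P : e'.1 ∈ P := (mem_filter.1 e'.2).1
      have he'I : e'.1.1 ∈ I := (mem_filter.1 e'.2).2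
      rw [Finset.sum_eq_single (⟨e'.1, he'P⟩ : P)]
      · simp only [M1, N1, if_true, mul_one]
        rw [hv _ _ he'I, Matrix.one_apply]
        by_cases hee : e = e'
        · subst hee; simp
        · rw [if_neg hee, Pi.single_apply, if_neg]
          intro h
          apply hee
          have hs := (mem_filter.1 he'P).2
          have hs' := (mem_filter.1 (mem_filter.1 e.2).1).2
          apply Subtype.ext
          apply Prod.ext h.symm
          apply Fin.ext
          rw [h] at hs
          omega
      · intro p _ hp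
        simp only [M1, N1]
        rw [if_neg, mul_zero]
        intro h
        exact hp (Subtype.ext h)
      · intro h
        exact absurd (mem_univ _) h
    have h2 : N2 * M2 = 1 := by
      ext e e'
      rw [Matrix.mul_apply]
      have heP : e.1 ∈ P := (mem_filter.1 e.2).1
      have heJ : e.1.2 ∈ J := (mem_filter.1 e.2).2
      rw [Finset.sum_eq_single (⟨e.1, heP⟩ : P)]
      · simp only [M2, N2, if_true, one_mul]
        rw [hw _ _ heJ, Matrix.one_apply]
        by_cases hee : e = e'
        · subst hee; simp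
        · rw [if_neg hee, Pi.single_apply, if_neg]
          intro h
          apply hee
          have hs := (mem_filter.1 heP).2
          have hs' := (mem_filter.1 (mem_filter.1 e'.2).1).2
          apply Subtype.ext
          refine Prod.ext ?_ h
          apply Fin.ext
          rw [h] at hs
          omega
      · intro p _ hp
        simp only [M2, N2]
        rw [if_neg, zero_mul]
        intro h
        exact hp (Subtype.ext h)
      · intro h
        exact absurd (mem_univ _) h
    have r1 : P1.card ≤ M1.rank := by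
      have := Matrix.rank_mul_le_left M1 N1
      rw [h1, Matrix.rank_one, Fintype.card_coe] at this
      exact this
    have r2 : P2.card ≤ M2.rank := by
      have := Matrix.rank_mul_le_right N2 M2
      rw [h2, Matrix.rank_one, Fintype.card_coe] at this
      exact this
    have r3 := Matrix.rank_add_rank_le_card_of_mul_eq_zero hz
    rw [Fintype.card_coe] at r3
    omega
  have hr : rr A B σ = P.card := rfl
  omega

end Pool.Agent.HM13.LC
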