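import Pool.Agent.HM13.LC.Rank
import Pool.Agent.H554R2.Lin.Defs

/-!
# Rectangles on which an antidiagonal quadratic form is constant
-/

set_option autoImplicit false

open Finset

namespace Pool.Agent.HM13.LC

open Pool.Agent.H554R2.Sem Pool.Agent.H554R2.Lin

variable {m : ℕ}

/-- bits as elements of the field -/
def tz (b : Bool) : ZMod 2 := if b then 1 else 0

/-- the quadratic form of the antidiagonal `σ` -/
def qz (σ : ℕ) (x : Pt m) : ZMod 2 :=
  ∑ u : Fin m, ∑ t : Fin m, if u < t ∧ (u : ℕ) + t = σ then tz (x u) * tz (x t) else 0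

/-- the difference of two points -/
def df (x x' : Pt m) : Fin m → ZMod 2 := fun u => tz (x u) + tz (x' u)

theorem tz_add_eq_zero {b c : Bool} (h : tz b + tz c = 0) : b = c := by
  revert h; revert b c; decide

theorem tz_add_self (b : Bool) : tz b + tz b = 0 := by
  revert b; decide

theorem bet_add_left (σ : ℕ) (v v' w : Fin m → ZMod 2) :
    bet σ (v + v') w = bet σ v w + bet σ v' w := by
  unfold bet
  rw [← Finset.sum_add_distrib]
  refine Finset.sum_congr rfl fun u _ => ?_
  rw [← Finset.sum_add_distrib]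
  refine Finset.sum_congr rfl fun t _ => ?_
  split_ifs
  · simp [add_mul]
  · simp

theorem bet_smul_left (σ : ℕ) (c : ZMod 2) (v w : Fin m → ZMod 2) :
    bet σ (c • v) w = c * bet σ v w := by
  unfold bet
  rw [Finset.mul_sum]
  refine Finset.sum_congr rfl fun u _ => ?_
  rw [Finset.mul_sum]
  refine Finset.sum_congr rfl fun t _ => ?_
  split_ifs
  · simp [mul_assoc]
  · simp

theorem bet_add_right (σ : ℕ) (v w w' : Fin m → ZMod 2) :
    bet σ v (w + w') = bet σ v w + bet σ v w' := by
  unfold bet
  rw [← Finset.sum_add_distrib]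
  refine Finset.sum_congr rfl fun u _ => ?_
  rw [← Finset.sum_add_distrib]
  refine Finset.sum_congr rfl fun t _ => ?_
  split_ifs
  · simp [mul_add]
  · simp

theorem bet_smul_right (σ : ℕ) (c : ZMod 2) (v w : Fin m → ZMod 2) :
    bet σ v (c • w) = c * bet σ v w := by
  unfold bet
  rw [Finset.mul_sum]
  refine Finset.sum_congr rfl fun u _ => ?_
  rw [Finset.mul_sum]
  refine Finset.sum_congr rfl fun t _ => ?_
  split_ifs
  · simp only [Pi.smul_apply, smul_eq_mul]; ring
  · simp

theorem bet_zero_left (σ : ℕ) (w : Fin m → ZMod 2) : bet σ 0 w = 0 := by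
  simp [bet]

theorem bet_zero_right (σ : ℕ) (v : Fin m → ZMod 2) : bet σ v 0 = 0 := by
  simp [bet]

theorem four_dec (inA inA' : Bool) (xu xu' yu yu' xt xt' yt yt' : Bool)
    (h1 : inA = false → xu = xu') (h2 : inA = true → yu = yu')
    (h3 : inA' = false → xt = xt') (h4 : inA' = true → yt = yt') :
    tz (if inA then xu else yu) * tz (if inA' then xt else yt) +
    tz (if inA then xu' else yu) * tz (if inA' then xt' else yt) +
    tz (if inA then xu else yu') * tz (if inA' then xt else yt') +
    tz (if inA then xu' else yu') * tz (if inA' then xt' else yt') =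
    (tz xu + tz xu') * (tz yt + tz yt') + (tz xt + tz xt') * (tz yu + tz yu') := by
  rcases inA with _ | _ <;> rcases inA' with _ | _
  · have e1 := h1 rfl
    have e3 := h3 rfl
    subst e1 e3
    clear h1 h2 h3 h4
    revert xu xt yu yu' yt yt'
    decide
  · have e1 := h1 rfl
    have e4 := h4 rfl
    subst e1 e4
    clear h1 h2 h3 h4
    revert xu xt xt' yu yu' yt
    decide
  · have e2 := h2 rfl
    have e3 := h3 rfl
    subst e2 e3
    clear h1 h2 h3 h4
    revert xu xu' xt yu yt yt'
    decide
  · have e2 := h2 rfl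
    have e4 := h4 rfl
    subst e2 e4
    clear h1 h2 h3 h4
    revert xu xu' xt xt' yu yt
    decide

/-- **Four points of a rectangle.** -/
theorem four (A B : Finset (Fin m)) (hAB : Disjoint A B) (x0 x x' y y' : Pt m)
    (hx : ∀ v, v ∉ A → x v = x0 v) (hx' : ∀ v, v ∉ A → x' v = x0 v)
    (hy : ∀ v, v ∉ B → y v = x0 v) (hy' : ∀ v, v ∉ B → y' v = x0 v) (σ : ℕ) :
    qz σ (merge A x y) + qz σ (merge A x' y) + qz σ (merge A x y') + qz σ (merge A x' y') =
      bet σ (df x x') (df y y') := by
  have hBA : ∀ v, v ∈ A → v ∉ B := fun v h => Finset.disjoint_left.1 hAB h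
  have e1 : bet σ (df x x') (df y y') =
      ∑ u : Fin m, ∑ t : Fin m, if u < t ∧ (u : ℕ) + t = σ then
        (df x x' u * df y y' t + df x x' t * df y y' u) else 0 := by
    have s1 : bet σ (df x x') (df y y') =
        (∑ u : Fin m, ∑ t : Fin m, if u < t ∧ (u : ℕ) + t = σ then df x x' u * df y y' t else 0) +
        (∑ u : Fin m, ∑ t : Fin m, if t < u ∧ (u : ℕ) + t = σ then df x x' u * df y y' t else 0) := by
      unfold bet
      rw [← Finset.sum_add_distrib]
      refine Finset.sum_congr rfl fun u _ => ?_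
      rw [← Finset.sum_add_distrib]
      refine Finset.sum_congr rfl fun t _ => ?_
      by_cases hs : (u : ℕ) + t = σ
      · rcases lt_trichotomy u t with h | h | h
        · simp [hs, h, not_lt.2 h.le]
        · subst h
          have hz : df x x' u * df y y' u = 0 := by
            by_cases hu : u ∈ A
            · have : df y y' u = 0 := by
                unfold df
                rw [hy u (hBA u hu), hy' u (hBA u hu)]
                exact tz_add_self _
              rw [this, mul_zero]
            · have : df x x' u = 0 := by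
                unfold df
                rw [hx u hu, hx' u hu]
                exact tz_add_self _
              rw [this, zero_mul]
          simp [hz]
        · simp [hs, h, not_lt.2 h.le]
      · simp [hs]
    have s2 : (∑ u : Fin m, ∑ t : Fin m, if t < u ∧ (u : ℕ) + t = σ then
          df x x' u * df y y' t else 0) =
        ∑ u : Fin m, ∑ t : Fin m, if u < t ∧ (u : ℕ) + t = σ then df x x' t * df y y' u else 0 := by
      rw [Finset.sum_comm]
      refine Finset.sum_congr rfl fun u _ => Finset.sum_congr rfl fun t _ => ?_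
      rw [add_comm (t : ℕ) u]
    rw [s1, s2, ← Finset.sum_add_distrib]
    refine Finset.sum_congr rfl fun u _ => ?_
    rw [← Finset.sum_add_distrib]
    refine Finset.sum_congr rfl fun t _ => ?_
    split_ifs
    · rfl
    · simp
  rw [e1]
  unfold qz
  rw [← Finset.sum_add_distrib, ← Finset.sum_add_distrib, ← Finset.sum_add_distrib]
  refine Finset.sum_congr rfl fun u _ => ?_
  rw [← Finset.sum_add_distrib, ← Finset.sum_add_distrib, ← Finset.sum_add_distrib]
  refine Finset.sum_congr rfl fun t _ => ?_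
  split_ifs with hc
  · have := four_dec (decide (u ∈ A)) (decide (t ∈ A)) (x u) (x' u) (y u) (y' u) (x t) (x' t)
      (y t) (y' t)
      (by intro h; have h' := of_decide_eq_false h; rw [hx u h', hx' u h'])
      (by intro h; have h' := of_decide_eq_true h; rw [hy u (hBA u h'), hy' u (hBA u h')])
      (by intro h; have h' := of_decide_eq_false h; rw [hx t h', hx' t h'])
      (by intro h; have h' := of_decide_eq_true h; rw [hy t (hBA t h'), hy' t (hBA t h')])
    simp only [decide_eq_true_eq] at this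
    exact this
  · simp

/-- one side of a rectangle -/
theorem side (A : Finset (Fin m)) (X : Finset (Pt m)) (x0 : Pt m) (g : ℕ)
    (hX : ∀ x ∈ X, ∀ v, v ∉ A → x v = x0 v) (hn : 2 ^ A.card ≤ 2 ^ g * X.card) :
    ∃ I : Finset (Fin m), (A \ I).card ≤ g ∧
      (∀ f : Fin m → ZMod 2, ∃ v ∈ Submodule.span (ZMod 2)
        {v | ∃ x ∈ X, ∃ x' ∈ X, v = df x x'}, ∀ j ∈ I, v j = f j) := by
  classical
  have : Fact (Nat.Prime 2) := ⟨Nat.prime_two⟩
  set V := Submodule.span (ZMod 2) {v | ∃ x ∈ X, ∃ x' ∈ X, v = df x x'} with hV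
  obtain ⟨I, hI1, hI2⟩ := info V
  refine ⟨I, ?_, hI1⟩
  have hsupp : ∀ v ∈ V, ∀ u, u ∉ A → v u = 0 := by
    intro v hv u hu
    rw [hV] at hv
    refine Submodule.span_induction (p := fun v _ => v u = 0) ?_ ?_ ?_ ?_ hv
    · rintro _ ⟨x, hx, x', hx', rfl⟩
      unfold df
      rw [hX x hx u hu, hX x' hx' u hu]
      exact tz_add_self _
    · rfl
    · intro a b _ _ ha hb
      rw [Pi.add_apply, ha, hb, add_zero]
    · intro c a _ ha
      rw [Pi.smul_apply, ha, smul_zero]
  have hIA : I ⊆ A := by
    intro i hi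
    by_contra hiA
    obtain ⟨v, hv, h1⟩ := hI1 (fun _ => 1)
    have h2 := h1 i hi
    rw [hsupp v hv i hiA] at h2
    exact zero_ne_one h2
  have hcard : X.card ≤ 2 ^ I.card := by
    have : X.card ≤ Fintype.card (I → Bool) := by
      refine Finset.card_le_card_of_injOn (t := univ) (fun x => fun j : I => x j) (by simp) ?_
      intro x hx x' hx' h
      have h0 : df x x' = 0 := by
        refine hI2 _ (Submodule.subset_span ⟨x, hx, x', hx', rfl⟩) fun j hj => ?_
        have h3 : x j = x' j := congrFun h ⟨j, hj⟩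
        unfold df
        rw [h3]
        exact tz_add_self _
      funext u
      exact tz_add_eq_zero (congrFun h0 u)
    rwa [Fintype.card_fun, Fintype.card_bool, Fintype.card_coe] at this
  have h1 : 2 ^ A.card ≤ 2 ^ (g + I.card) := by
    rw [pow_add]
    exact hn.trans (Nat.mul_le_mul_left _ hcard)
  have h2 := (Nat.pow_le_pow_iff_right (by norm_num : 1 < 2)).1 h1
  rw [Finset.card_sdiff_of_subset hIA]
  omega

/-- **Rectangles on which quadratic forms are constant.** -/
theorem rect_info {K : Finset (Pt m)} {a b g : ℕ} (R : Rect K a b g) :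
    ∃ I J : Finset (Fin m), (R.A \ I).card ≤ g ∧ (R.B \ J).card ≤ g ∧
      ∀ σ, (∃ c, ∀ x ∈ K, qz σ x = c) →
        rr R.A R.B σ ≤ rr (R.A \ I) R.B σ + rr R.A (R.B \ J) σ := by
  classical
  obtain ⟨I, hI1, hI2⟩ := side R.A R.X R.x0 g R.hX (by rw [R.cA]; exact R.nX)
  obtain ⟨J, hJ1, hJ2⟩ := side R.B R.Y R.x0 g R.hY (by rw [R.cB]; exact R.nY)
  refine ⟨I, J, hI1, hJ1, ?_⟩
  rintro σ ⟨c, hc⟩
  have hsuppX : ∀ v ∈ Submodule.span (ZMod 2) {v | ∃ x ∈ R.X, ∃ x' ∈ R.X, v = df x x'},
      ∀ u, u ∉ R.A → v u = 0 := by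
    intro v hv u hu
    refine Submodule.span_induction (p := fun v _ => v u = 0) ?_ ?_ ?_ ?_ hv
    · rintro _ ⟨x, hx, x', hx', rfl⟩
      unfold df
      rw [R.hX x hx u hu, R.hX x' hx' u hu]
      exact tz_add_self _
    · rfl
    · intro a b _ _ ha hb
      rw [Pi.add_apply, ha, hb, add_zero]
    · intro c a _ ha
      rw [Pi.smul_apply, ha, smul_zero]
  have hsuppY : ∀ v ∈ Submodule.span (ZMod 2) {v | ∃ x ∈ R.Y, ∃ x' ∈ R.Y, v = df x x'},
      ∀ u, u ∉ R.B → v u = 0 := by
    intro v hv u hu
    refine Submodule.span_induction (p := fun v _ => v u = 0) ?_ ?_ ?_ ?_ hv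
    · rintro _ ⟨x, hx, x', hx', rfl⟩
      unfold df
      rw [R.hY x hx u hu, R.hY x' hx' u hu]
      exact tz_add_self _
    · rfl
    · intro a b _ _ ha hb
      rw [Pi.add_apply, ha, hb, add_zero]
    · intro c a _ ha
      rw [Pi.smul_apply, ha, smul_zero]
  refine rr_le _ _ R.A R.B I J σ hsuppX hsuppY hI2 hJ2 ?_
  have hcc : ∀ c : ZMod 2, c + c + c + c = 0 := by decide
  intro v hv w hw
  refine Submodule.span_induction (p := fun v _ => bet σ v w = 0) ?_ ?_ ?_ ?_ hv
  · rintro _ ⟨x, hx, x', hx', rfl⟩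
    refine Submodule.span_induction (p := fun w _ => bet σ (df x x') w = 0) ?_ ?_ ?_ ?_ hw
    · rintro _ ⟨y, hy, y', hy', rfl⟩
      rw [← four R.A R.B R.disj R.x0 x x' y y' (R.hX x hx) (R.hX x' hx') (R.hY y hy)
        (R.hY y' hy') σ]
      rw [hc _ (R.mem x hx y hy), hc _ (R.mem x' hx' y hy), hc _ (R.mem x hx y' hy'),
        hc _ (R.mem x' hx' y' hy')]
      exact hcc c
    · exact bet_zero_right _ _
    · intro a b _ _ ha hb
      rw [bet_add_right, ha, hb, add_zero]
    · intro c a _ ha
      rw [bet_smul_right, ha, mul_zero]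
  · exact bet_zero_left _ _
  · intro a b _ _ ha hb
    rw [bet_add_left, ha, hb, add_zero]
  · intro c a _ ha
    rw [bet_smul_left, ha, mul_zero]

end Pool.Agent.HM13.LC
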