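import Pool.Agent.HM13.LC.Gram
import Pool.Agent.HM13.LC.Rect

/-!
# Words and antidiagonal quadratic forms
-/

set_option autoImplicit false

open Finset

namespace Pool.Agent.HM13.LC

open Pool.Agent.TH457.HT Pool.Agent.H554R2.Sem

variable {m n : ℕ}

/-- the bits of a point, continued by zeros -/
def xx (x : Pt m) (i : ℕ) : Bool := if h : i < m then x ⟨i, h⟩ else false

/-- the flags: the position `σ + 1` carries the flag `c σ` if `σ ∈ S` -/
def fl (S : Finset ℕ) (c : ℕ → Bool) : ℕ → Option Bool
  | 0 => none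
  | i + 1 => if i ∈ S then some (c i) else none

theorem fl_succ (S : Finset ℕ) (c : ℕ → Bool) (i : ℕ) :
    fl S c (i + 1) = if i ∈ S then some (c i) else none := rfl

/-- the word of a point -/
def wd (n : ℕ) (S : Finset ℕ) (c : ℕ → Bool) (x : Pt m) : Fin n → Letter :=
  fun i => (xx x i, fl S c i)

theorem tz_odd (k : ℕ) : tz (decide (Odd k)) = (k : ZMod 2) := by
  by_cases h : Odd k
  · rw [decide_eq_true h]
    have : (k : ZMod 2) = 1 := (ZMod.natCast_eq_one_iff_odd).2 h
    rw [this]; rfl
  · rw [decide_eq_false h]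
    have : (k : ZMod 2) = 0 := (ZMod.natCast_eq_zero_iff_even).2 (Nat.not_odd_iff_even.1 h)
    rw [this]; rfl

theorem tz_inj {b c : Bool} (h : tz b = tz c) : b = c := by
  revert h; revert b c; decide

theorem prs_eq (w : List Letter) (x : Pt m) (σ : ℕ) (hl : w.length = σ + 1)
    (hb : ∀ u, u < σ + 1 → bt w u = xx x u) : (prs w : ZMod 2) = qz σ x := by
  classical
  have h1 : qz σ x = (((univ : Finset (Fin m × Fin m)).filter (fun p => p.1 < p.2 ∧
      (p.1 : ℕ) + p.2 = σ ∧ x p.1 = true ∧ x p.2 = true)).card : ZMod 2) := by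
    unfold qz
    rw [Finset.card_filter, ← Finset.univ_product_univ, Finset.sum_product]
    push_cast
    refine Finset.sum_congr rfl fun u _ => Finset.sum_congr rfl fun t _ => ?_
    by_cases h1 : u < t ∧ (u : ℕ) + t = σ
    · rw [if_pos h1]
      obtain ⟨h2, h3⟩ := h1
      cases hxu : x u <;> cases hxt : x t <;> simp [h2, h3, tz]
    · rw [if_neg h1, if_neg]
      rintro ⟨h2, h3, -⟩
      exact h1 ⟨h2, h3⟩
  rw [h1]
  congr 1
  unfold prs
  rw [hl]
  symm
  refine Finset.card_bij (fun p _ => (p.1 : ℕ)) ?_ ?_ ?_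
  · intro p hp
    obtain ⟨-, h2, h3, h4, h5⟩ := mem_filter.1 hp
    have h2' : (p.1 : ℕ) < p.2 := h2
    rw [mem_filter, mem_range, hb _ (by omega), hb _ (by omega)]
    refine ⟨by omega, by omega, ?_, ?_⟩
    · unfold xx
      rw [dif_pos p.1.2]; exact h4
    · unfold xx
      have h6 : σ + 1 - 1 - (p.1 : ℕ) = p.2 := by omega
      rw [h6, dif_pos p.2.2]; exact h5
  · intro p hp q hq h
    obtain ⟨-, h2, h3, h4, h5⟩ := mem_filter.1 hp
    obtain ⟨-, k2, k3, k4, k5⟩ := mem_filter.1 hq
    have h' : (p.1 : ℕ) = q.1 := h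
    exact Prod.ext (Fin.ext h') (Fin.ext (by omega))
  · intro u hu
    obtain ⟨h2, h3, h4, h5⟩ := mem_filter.1 hu
    rw [mem_range] at h2
    rw [hb _ h2] at h4
    rw [hb _ (by omega)] at h5
    unfold xx at h4 h5
    have hum : u < m := by
      by_contra h
      rw [dif_neg h] at h4
      exact Bool.noConfusion h4
    have htm : σ + 1 - 1 - u < m := by
      by_contra h
      rw [dif_neg h] at h5
      exact Bool.noConfusion h5
    rw [dif_pos hum] at h4
    rw [dif_pos htm] at h5
    refine ⟨(⟨u, hum⟩, ⟨σ + 1 - 1 - u, htm⟩), ?_, rfl⟩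
    rw [mem_filter]
    refine ⟨mem_univ _, ?_, ?_, h4, h5⟩
    · show u < σ + 1 - 1 - u
      omega
    · show u + (σ + 1 - 1 - u) = σ
      omega

theorem bt_take (W : Fin n → Letter) (j : ℕ) (hj : j ≤ n) (u : ℕ) (hu : u < j) :
    bt ((List.ofFn W).take j) u = (W ⟨u, by omega⟩).1 := by
  unfold bt
  have h1 : u < ((List.ofFn W).take j).length := by
    rw [List.length_take, List.length_ofFn]; omega
  rw [List.getD_eq_getElem _ _ h1, List.getElem_take, List.getElem_ofFn]

theorem pty_take (S : Finset ℕ) (c : ℕ → Bool) (x : Pt m) (σ : ℕ) (hσ : σ + 1 < n) :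
    tz (pty ((List.ofFn (wd n S c x)).take (σ + 1))) = qz σ x := by
  unfold pty
  rw [tz_odd]
  refine prs_eq _ x σ ?_ ?_
  · rw [List.length_take, List.length_ofFn]; omega
  · intro u hu
    rw [bt_take _ _ hσ.le u hu]
    rfl

/-- **Membership of the words of points.** -/
theorem mem_wd (S : Finset ℕ) (c : ℕ → Bool) (x : Pt m) :
    List.ofFn (wd n S c x) ∈ gram.language ↔ ∃ σ ∈ S, σ + 1 < n ∧ qz σ x ≠ tz (c σ) := by
  rw [mem_lang]
  constructor
  · rintro ⟨w₁, b, c', w₂, h1, h2⟩
    have hlen : w₁.length < n := by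
      have := congrArg List.length h1
      rw [List.length_ofFn, List.length_append, List.length_cons] at this
      omega
    have ht : (List.ofFn (wd n S c x)).take w₁.length = w₁ := by
      rw [h1, List.take_left]
    have hg : (List.ofFn (wd n S c x))[w₁.length]'(by rw [List.length_ofFn]; exact hlen) =
        (b, some c') := by
      have : ∀ (L : List Letter) (hL : L = w₁ ++ (b, some c') :: w₂) (hw : w₁.length < L.length),
          L[w₁.length]'hw = (b, some c') := by
        intro L hL hw
        subst hL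
        simp
      exact this _ h1 _
    rw [List.getElem_ofFn] at hg
    have hf : fl S c w₁.length = some c' := congrArg Prod.snd hg
    obtain ⟨j, hj⟩ : ∃ j, j = w₁.length := ⟨_, rfl⟩
    rw [← hj] at hf hlen ht
    rcases j with _ | σ
    · simp [fl] at hf
    · rw [fl_succ] at hf
      split_ifs at hf with hσ
      have hc : c σ = c' := Option.some.inj hf
      refine ⟨σ, hσ, hlen, ?_⟩
      intro h3
      have h4 := pty_take S c x σ hlen
      rw [ht, h3] at h4
      apply h2
      rw [← hc]
      exact tz_inj h4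
  · rintro ⟨σ, hσ, hn, h⟩
    refine ⟨(List.ofFn (wd n S c x)).take (σ + 1), xx x (σ + 1), c σ,
      (List.ofFn (wd n S c x)).drop (σ + 2), ?_, ?_⟩
    · have h1 : σ + 1 < (List.ofFn (wd n S c x)).length := by rw [List.length_ofFn]; exact hn
      conv_lhs => rw [← List.take_append_drop (σ + 1) (List.ofFn (wd n S c x))]
      congr 1
      rw [List.drop_eq_getElem_cons h1, List.getElem_ofFn]
      congr 1
      show (xx x (σ + 1), fl S c (σ + 1)) = _
      rw [fl_succ, if_pos hσ]
    · intro h3
      apply h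
      rw [← pty_take S c x σ hn, h3]

end Pool.Agent.HM13.LC
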